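import Pool.Agent.Helper79.GL4.GoalsB

/-!
# GL4: packet E3
-/

set_option linter.unusedVariables false

namespace GL4.H86

open Module Submodule GL4

variable {F : Type} [Field F] {W : Type} [AddCommGroup W] [Module F W]

/-- intersection description of a hyperplane `Y` of `U` -/
theorem exists_hy_inf [FiniteDimensional F W] {Y U : Submodule F W} (hYU : Y ≤ U)
    (hd : finrank F Y + 1 = finrank F U) : ∃ M, Hy M ∧ Y ≤ M ∧ ¬ U ≤ M ∧ U ⊓ M = Y := by
  have h1 : ¬ U ≤ Y := by
    intro h
    have := Submodule.finrank_mono h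
    omega
  obtain ⟨M, hM, hYM, hUM⟩ := exists_hy_not_ge h1
  refine ⟨M, hM, hYM, hUM, ?_⟩
  have h2 := finrank_inf_hy hM hUM
  exact (Submodule.eq_of_le_of_finrank_eq (le_inf hYU hYM) (by omega)).symm

/-- number of hyperplanes of `U` containing `x` -/
theorem card_hy_between [Finite F] [FiniteDimensional F W] {x U : Submodule F W} (hxU : x ≤ U)
    {c : ℕ} (hU : finrank F U = c + 1) (hx : finrank F x = 1) :
    Nat.card {Y : Submodule F W // x ≤ Y ∧ Y ≤ U ∧ finrank F Y = c} = br (Nat.card F) c := by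
  have h1 := card_hys_ge (F := F) (V := U) (x.comap U.subtype)
  rw [finrank_restr hxU, hU, hx, Nat.add_sub_cancel] at h1
  rw [← h1]
  refine Nat.card_congr ?_
  refine { toFun := fun Y => ⟨Y.1.comap U.subtype, ?_, ?_⟩
           invFun := fun H => ⟨H.1.map U.subtype, ?_, ?_, ?_⟩
           left_inv := ?_, right_inv := ?_ }
  · rw [Hy, finrank_restr Y.2.2.1, Y.2.2.2, hU]
  · exact Submodule.comap_mono Y.2.1
  · have := H.2.2
    rwa [← incl_le_incl, incl_restr hxU] at this
  · exact incl_le _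
  · have := H.2.1
    rw [Hy, hU] at this
    rw [finrank_incl]; omega
  · rintro ⟨Y, h1, h2, h3⟩
    exact Subtype.ext (incl_restr h2)
  · rintro ⟨H, h1, h2⟩
    exact Subtype.ext (restr_incl H)

theorem e3 : GL4.E3 := by
  intro F _ _ W _ _ _ G c B C N L hWS hc hm h1 h2
  have bc := hWS.bc
  have nn := hWS.nn
  have P1 : ∀ x Y, Pt x → x ≤ Y → Y ≤ N x → finrank F Y = c →
      ∃! H, Hy H ∧ B x ≤ H ∧ C H = Y := by
    intro x Y0 hx hxY hYN hYc
    have hdB := bc.dimB x hx
    have hdN := nn.dimN x hx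
    -- the map
    let f : {H : Submodule F W // Hy H ∧ B x ≤ H} →
        {Y : Submodule F W // x ≤ Y ∧ Y ≤ N x ∧ finrank F Y = c} :=
      fun H => ⟨C H.1, (bc.adj x H.1 hx H.2.1).2 H.2.2,
        (h1 x H.1 hx H.2.1 ((bc.adj x H.1 hx H.2.1).2 H.2.2)).2, bc.dimC _ H.2.1⟩
    have hsurj : Function.Surjective f := by
      rintro ⟨Y, hxY, hYN, hYc⟩
      have hBt : ¬ (⊤ : Submodule F W) ≤ B x := by
        intro h
        have := Submodule.finrank_mono h
        rw [finrank_top] at this
        omega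
      obtain ⟨H1, hH1, hBH1, -⟩ := exists_hy_not_ge hBt
      have hf1 := (f ⟨H1, hH1, hBH1⟩).2
      change x ≤ C H1 ∧ C H1 ≤ N x ∧ finrank F (C H1) = c at hf1
      obtain ⟨M1, hM1, hYM1, hNM1, hi1⟩ := exists_hy_inf hf1.2.1 (by rw [hf1.2.2, hdN])
      obtain ⟨M0, hM0, hYM0, hNM0, hi0⟩ := exists_hy_inf hYN (by rw [hYc, hdN])
      obtain ⟨g, hg, hgx, hgM⟩ := nn.trNH x M1 M0 hx hM1 hM0 (hf1.1.trans hYM1) (hxY.trans hYM0)
        hNM1 hNM0
      refine ⟨⟨im g H1, hH1.im, ?_⟩, ?_⟩
      · have := bc.eqB g hg x hx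
        rw [hgx] at this
        rw [this]
        exact im_mono g hBH1
      · apply Subtype.ext
        change C (im g H1) = Y
        rw [bc.eqC g hg H1 hH1, ← hi1, im_inf, hgM, ← nn.eqN g hg x hx, hgx, hi0]
    have hcard : Nat.card {H : Submodule F W // Hy H ∧ B x ≤ H} =
        Nat.card {Y : Submodule F W // x ≤ Y ∧ Y ≤ N x ∧ finrank F Y = c} := by
      rw [card_hys_ge, card_hy_between (nn.selfN x hx) hdN hx]
      congr 1
      omega
    have hbij : Function.Bijective f :=
      (Nat.bijective_iff_surjective_and_card f).2 ⟨hsurj, hcard⟩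
    obtain ⟨⟨H, hH, hBH⟩, hfH⟩ := hsurj ⟨Y0, hxY, hYN, hYc⟩
    refine ⟨H, ⟨hH, hBH, congrArg Subtype.val hfH⟩, ?_⟩
    rintro H' ⟨hH', hBH', hCH'⟩
    have : f ⟨H', hH', hBH'⟩ = f ⟨H, hH, hBH⟩ := by
      rw [hfH]
      exact Subtype.ext hCH'
    exact congrArg Subtype.val (hbij.1 this)
  refine ⟨P1, ?_, ?_⟩
  · intro x y hx hy hBB
    by_contra hxy
    -- Z
    let Z : Submodule F W := sInf {U | ∃ u, Pt u ∧ u ≤ B x ∧ U = B u}
    have hZ : ∀ z, Pt z → (z ≤ Z ↔ B z = B x) := by
      intro z hz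
      constructor
      · intro h
        have h3 : B x ≤ B z := by
          apply le_of_pts
          intro u hu hux
          have h4 : z ≤ B u := h.trans (sInf_le ⟨u, hu, hux, rfl⟩)
          exact bc.symB u z hu hz h4
        have h5 := bc.dimB x hx
        have h6 := bc.dimB z hz
        exact (Submodule.eq_of_le_of_finrank_eq h3 (by omega)).symm
      · intro h
        apply le_sInf
        rintro U ⟨u, hu, hux, rfl⟩
        rw [← h] at hux
        exact bc.symB z u hz hu hux
    have hxZ : x ≤ Z := (hZ x hx).2 rfl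
    have hyZ : y ≤ Z := (hZ y hy).2 hBB.symm
    have hZx : ¬ Z ≤ x := by
      intro h
      exact hxy (hy.eq_of_le hx (hyZ.trans h)).symm
    have hinv : ∀ g ∈ G, im g x = x → im g Z ≤ Z := by
      intro g hg hgx
      apply le_of_pts
      intro z hz hzZ
      have hz' : Pt (im g⁻¹ z) := hz.im
      have h3 : im g⁻¹ z ≤ Z := by
        rw [← im_le_im_iff g, im_im_inv]; exact hzZ
      rw [hZ _ hz'] at h3
      rw [hZ z hz]
      have h4 := bc.eqB g hg _ hz'
      rw [im_im_inv, h3, ← bc.eqB g hg x hx, hgx] at h4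
      exact h4
    have hdN := nn.dimN x hx
    have hNx : ¬ N x ≤ x := by
      intro h
      have := Submodule.finrank_mono h
      rw [hdN, hx] at this
      omega
    have hNZ : N x ≤ Z := by
      by_contra hNZ
      obtain ⟨M1, hM1, hZM1, hNM1⟩ := exists_hy_not_ge hNZ
      obtain ⟨M2, hM2, hxM2, hNM2, hZM2⟩ := exists_hy_not_ge₂ hNx hZx
      obtain ⟨g, hg, hgx, hgM⟩ := nn.trNH x M1 M2 hx hM1 hM2 (hxZ.trans hZM1) hxM2 hNM1 hNM2
      apply hZM2
      have h3 := im_eq_of_le (hinv g hg hgx)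
      rw [← h3, ← hgM]
      exact im_mono g hZM1
    obtain ⟨z, hz, hzN, hzx⟩ := exists_pt_not_le hNx
    have h3 := (hZ z hz).1 (hzN.trans hNZ)
    have h4 := h2 x z hx hz hzN (by rintro rfl; exact hzx le_rfl)
    rw [h3, sup_idem] at h4
    have h5 := bc.dimB x hx
    omega
  · intro hc3 x y hx hy hyN
    have hdN := nn.dimN x hx
    have hdNy := nn.dimN y hy
    have hle : N x ≤ N y := by
      apply le_of_pts
      intro z hz hzN
      have hT : x ⊔ y ⊔ z ≤ N x := sup_le (sup_le (nn.selfN x hx) hyN) hzN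
      have hdT : finrank F ↥(x ⊔ y ⊔ z) ≤ 3 := by
        have e1 := Submodule.finrank_add_le_finrank_add_finrank (x ⊔ y) z
        have e2 := Submodule.finrank_add_le_finrank_add_finrank x y
        rw [Pt] at hx hy hz
        omega
      have hnT : ¬ N x ≤ x ⊔ y ⊔ z := by
        intro h
        have := Submodule.finrank_mono h
        omega
      obtain ⟨M, hM, hTM, hNM⟩ := exists_hy_not_ge hnT
      have hd := finrank_inf_hy hM hNM
      obtain ⟨H, ⟨hH, hBH, hCH⟩, -⟩ := P1 x (N x ⊓ M) hx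
        (le_inf (nn.selfN x hx) ((le_sup_left.trans le_sup_left).trans hTM)) inf_le_left (by omega)
      have hyC : y ≤ C H := by
        rw [hCH]
        exact le_inf hyN ((le_sup_right.trans le_sup_left).trans hTM)
      have hzC : z ≤ C H := by
        rw [hCH]
        exact le_inf hzN (le_sup_right.trans hTM)
      exact hzC.trans (h1 y H hy hH hyC).2
    exact (Submodule.eq_of_le_of_finrank_eq hle (by omega)).symm

end GL4.H86
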